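import Pool.Agent.N878.F.Path
import Pool.Agent.W588.HT.Core
import Pool.Agent.W930.HT.Log

/-!
# Small vertices: asymptotics of the outer integral on a staircase path
-/

set_option autoImplicit false
set_option maxHeartbeats 1000000

namespace Pool.Agent.N878.F

open Filter Finset Topology Metric MeasureTheory
open Pool.Agent.W711.HT
open Pool.Agent.W85.HT
open Pool.Agent.N561 (Pth S_OUT)
open scoped Real

/-- open rectangle centred at `i c` -/
def Rq (c α β : ℝ) : Set ℂ := {w | |w.re| < α ∧ |w.im - c| < β}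

/-- closed rectangle centred at `i c` -/
def Kq (c α β : ℝ) : Set ℂ := {w | |w.re| ≤ α ∧ |w.im - c| ≤ β}

lemma Kq_compact (c α β : ℝ) : IsCompact (Kq c α β) := by
  have h : Kq c α β = Set.Icc (-α) α ×ℂ Set.Icc (c - β) (c + β) := by
    ext w
    rw [Complex.mem_reProdIm, Set.mem_Icc, Set.mem_Icc]
    show |w.re| ≤ α ∧ |w.im - c| ≤ β ↔ _
    rw [abs_le, abs_le]
    constructor
    · rintro ⟨h1, h2, h3⟩
      exact ⟨h1, by linarith, by linarith⟩
    · rintro ⟨h1, h2, h3⟩
      exact ⟨h1, by linarith, by linarith⟩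
  rw [h]
  exact isCompact_Icc.reProdIm isCompact_Icc

lemma Rq_open (c α β : ℝ) : IsOpen (Rq c α β) := by
  have h1 : IsOpen {w : ℂ | |w.re| < α} := isOpen_lt (by fun_prop) continuous_const
  have h2 : IsOpen {w : ℂ | |w.im - c| < β} := isOpen_lt (by fun_prop) continuous_const
  exact h1.inter h2

lemma Rq_convex (c α β : ℝ) : Convex ℝ (Rq c α β) := by
  have h : Rq c α β = ({w : ℂ | -α < w.re} ∩ {w : ℂ | w.re < α}) ∩
      ({w : ℂ | c - β < w.im} ∩ {w : ℂ | w.im < c + β}) := by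
    ext w
    show |w.re| < α ∧ |w.im - c| < β ↔ (-α < w.re ∧ w.re < α) ∧ (c - β < w.im ∧ w.im < c + β)
    rw [abs_lt, abs_lt]
    constructor
    · rintro ⟨h1, h2, h3⟩
      exact ⟨h1, by linarith, by linarith⟩
    · rintro ⟨h1, h2, h3⟩
      exact ⟨h1, by linarith, by linarith⟩
  rw [h]
  exact ((convex_halfSpace_re_gt _).inter (convex_halfSpace_re_lt _)).inter
    ((convex_halfSpace_im_gt _).inter (convex_halfSpace_im_lt _))

lemma gap {K : Set ℂ} (hK : IsCompact K) {φ : ℂ → ℝ} {v : ℝ}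
    (hφ : ContinuousOn φ K) (h : ∀ x ∈ K, φ x < v) :
    ∃ κ : ℝ, 0 < κ ∧ ∀ x ∈ K, φ x ≤ v - κ := by
  rcases K.eq_empty_or_nonempty with he | hne
  · refine ⟨1, one_pos, fun x hx => ?_⟩
    rw [he] at hx
    exact absurd hx (Set.notMem_empty x)
  · obtain ⟨w, hw, hmax⟩ := hK.exists_isMaxOn hne hφ
    have h1 := h w hw
    refine ⟨v - φ w, by linarith, fun x hx => ?_⟩
    have : φ x ≤ φ w := hmax hx
    linarith

/-- a rectangle around a horizontal segment in an open set -/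
lemma tube {U : Set ℂ} (hU : IsOpen U) {c b : ℝ}
    (h : ∀ w : ℂ, |w.re| ≤ b → w.im = c → w ∈ U) {m : ℝ} (hm : 0 < m) :
    ∃ η : ℝ, 0 < η ∧ η ≤ m ∧ Kq c (b + η) η ⊆ U := by
  obtain ⟨δ, hδ, hsub⟩ := (Kq_compact c b 0).exists_cthickening_subset_open hU (by
    intro w hw
    have h2 : |w.im - c| ≤ 0 := hw.2
    have h3 : w.im - c = 0 := abs_eq_zero.1 (le_antisymm h2 (abs_nonneg _))
    exact h w hw.1 (by linarith))
  rcases lt_or_ge b 0 with hb | hb
  · refine ⟨min m (-b / 2), lt_min hm (by linarith), min_le_left _ _, ?_⟩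
    intro w hw
    have h1 : |w.re| ≤ b + min m (-b / 2) := hw.1
    have h2 := min_le_right m (-b / 2)
    have h3 := abs_nonneg w.re
    linarith
  refine ⟨min m (δ / 2), lt_min hm (by positivity), min_le_left _ _, ?_⟩
  intro w hw
  apply hsub
  obtain ⟨η, hη⟩ : ∃ η : ℝ, η = min m (δ / 2) := ⟨_, rfl⟩
  have hη1 : η ≤ δ / 2 := by rw [hη]; exact min_le_right _ _
  have hη0 : 0 < η := by rw [hη]; exact lt_min hm (by positivity)
  rw [← hη] at hw
  obtain ⟨h1, h2⟩ := hw
  obtain ⟨x, hx⟩ : ∃ x : ℝ, x = max (-b) (min b w.re) := ⟨_, rfl⟩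
  have hx1 : |x| ≤ b := by
    rw [abs_le, hx]
    exact ⟨le_max_left _ _, max_le (by linarith) (min_le_left _ _)⟩
  have hx2 : |w.re - x| ≤ η := by
    rw [abs_le] at h1 ⊢
    rw [hx]
    rcases le_total b w.re with h | h
    · rw [min_eq_left h, max_eq_right (by linarith)]
      constructor <;> linarith
    · rw [min_eq_right h]
      rcases le_total (-b) w.re with h' | h'
      · rw [max_eq_right h']
        constructor <;> linarith
      · rw [max_eq_left h']
        constructor <;> linarith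
  refine mem_cthickening_of_dist_le w (x + c * Complex.I) δ _ ⟨?_, ?_⟩ ?_
  · rw [xy_re]; exact hx1
  · rw [xy_im, sub_self, abs_zero]
  · rw [dist_eq_norm]
    refine (Complex.norm_le_abs_re_add_abs_im _).trans ?_
    rw [Complex.sub_re, Complex.sub_im, xy_re, xy_im]
    linarith

/-- the staircase without its top -/
def K3 (x₁ x₂ y₁ y₂ τ₁ : ℝ) : Set ℂ := {w | (|w.re| = x₁ ∧ τ₁ ≤ w.im ∧ w.im ≤ y₁) ∨
  (x₂ ≤ |w.re| ∧ |w.re| ≤ x₁ ∧ w.im = y₁) ∨ (|w.re| = x₂ ∧ y₁ ≤ w.im ∧ w.im ≤ y₂)}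

lemma K3_compact {x₁ x₂ y₁ y₂ τ₁ : ℝ} (hx : x₂ ≤ x₁) (h0 : 0 ≤ τ₁) (h1 : τ₁ ≤ y₁) (h2 : y₁ ≤ y₂) :
    IsCompact (K3 x₁ x₂ y₁ y₂ τ₁) := by
  have c1 : IsClosed (K3 x₁ x₂ y₁ y₂ τ₁) := by
    have r1 : Continuous fun w : ℂ => |w.re| := by fun_prop
    have r2 : Continuous fun w : ℂ => w.im := by fun_prop
    have k1 : IsClosed {w : ℂ | |w.re| = x₁ ∧ τ₁ ≤ w.im ∧ w.im ≤ y₁} :=
      (isClosed_eq r1 continuous_const).inter
        ((isClosed_le continuous_const r2).inter (isClosed_le r2 continuous_const))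
    have k2 : IsClosed {w : ℂ | x₂ ≤ |w.re| ∧ |w.re| ≤ x₁ ∧ w.im = y₁} :=
      (isClosed_le continuous_const r1).inter
        ((isClosed_le r1 continuous_const).inter (isClosed_eq r2 continuous_const))
    have k3 : IsClosed {w : ℂ | |w.re| = x₂ ∧ y₁ ≤ w.im ∧ w.im ≤ y₂} :=
      (isClosed_eq r1 continuous_const).inter
        ((isClosed_le continuous_const r2).inter (isClosed_le r2 continuous_const))
    exact k1.union (k2.union k3)
  refine (Kq_compact 0 x₁ y₂).of_isClosed_subset c1 ?_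
  intro w hw
  show |w.re| ≤ x₁ ∧ |w.im - 0| ≤ y₂
  rw [sub_zero]
  rcases hw with ⟨a1, a2, a3⟩ | ⟨a1, a2, a3⟩ | ⟨a1, a2, a3⟩
  · exact ⟨a1.le, by rw [abs_of_nonneg (by linarith)]; linarith⟩
  · exact ⟨a2, by rw [abs_of_nonneg (by linarith)]; linarith⟩
  · exact ⟨by linarith, by rw [abs_of_nonneg (by linarith)]; linarith⟩

theorem out : S_OUT := by
  intro a U G x₁ x₂ y₁ τ₁ z hU hG hx hxπ hτ1 hτy hyz hzr hPth hcrit hneg hlt P PL B D hP hPL hMW
    hB hBV hD hDV
  have hπ := Real.pi_pos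
  have hx2 : 0 < x₂ := lt_of_le_of_lt (abs_nonneg _) hzr
  have hx1 : 0 < x₁ := lt_of_lt_of_le hx2 hx
  have hy1 : 0 < y₁ := lt_of_lt_of_le hτ1 hτy
  have hz0 : 0 < z.im := lt_of_lt_of_le hy1 hyz
  obtain ⟨V, hV⟩ : ∃ V : ℝ, V = (qq a G z).re := ⟨_, rfl⟩
  rw [← hV] at hlt hBV hDV ⊢
  -- the rectangles
  obtain ⟨η, hη, hηz, hηU⟩ := tube hU (c := z.im) (b := x₂) (fun w h1 h2 =>
    hPth (Or.inr (Or.inr (Or.inr ⟨h1, h2⟩)))) (m := z.im / 2) (by positivity)
  have hRK : Rq z.im (x₂ + η) η ⊆ Kq z.im (x₂ + η) η := fun w hw => ⟨hw.1.le, hw.2.le⟩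
  have hRU : Rq z.im (x₂ + η) η ⊆ U := hRK.trans hηU
  have hKR : Kq z.im (x₂ + η / 2) (η / 2) ⊆ Rq z.im (x₂ + η) η := fun w hw =>
    ⟨by have := hw.1; linarith, by have := hw.2; linarith⟩
  have hmw1 : MW PL G (Rq z.im (x₂ + η) η) := by
    intro ε hε
    filter_upwards [hMW _ hηU (Kq_compact _ _ _) ε hε] with N hN w hw
    exact hN w (hRK hw)
  obtain ⟨g, c, hc1, hgd, hglim⟩ := Pool.Agent.W930.HTLog.main PL G _ _
    (Rq_open z.im (x₂ + η) η) (Rq_convex _ _ _)
    (Eventually.of_forall fun N => (hPL N).differentiableOn) (hG.mono hRU) hmw1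
    (Kq_compact z.im (x₂ + η / 2) (η / 2)) hKR
  -- the open set for the Laplace method
  obtain ⟨W, hW⟩ : ∃ W : Set ℂ, W = Rq z.im (x₂ + η / 2) (η / 2) := ⟨_, rfl⟩
  have hWo : IsOpen W := by rw [hW]; exact Rq_open _ _ _
  have hWK : W ⊆ Kq z.im (x₂ + η / 2) (η / 2) := by
    intro w hw
    rw [hW] at hw
    exact ⟨hw.1.le, hw.2.le⟩
  have hWim : ∀ w ∈ W, z.im / 2 ≤ w.im ∧ w.im ≤ 2 * z.im := by
    intro w hw
    rw [hW] at hw
    have := abs_lt.1 hw.2
    constructor <;> linarith [this.1, this.2]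
  have hpol : Differentiable ℂ (fun w : ℂ => Complex.I * a * w ^ 2 / (4 * π) + Complex.I * w) := by
    fun_prop
  have hqqd : DifferentiableOn ℂ (qq a G) U := by
    unfold qq
    exact hpol.differentiableOn.add hG
  obtain ⟨q, hq⟩ : ∃ q : ℕ → ℂ → ℂ, q = fun N w => qq a (g N) w := ⟨_, rfl⟩
  have hqe : ∀ N w, q N w = qq a (g N) w := fun N w => by rw [hq]
  have hqd : ∀ᶠ N : ℕ in atTop, DifferentiableOn ℂ (q N) (Rq z.im (x₂ + η) η) := by
    filter_upwards [hgd] with N hN
    rw [hq]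
    unfold qq
    exact hpol.differentiableOn.add hN.1
  have hqlim : TendstoUniformlyOn q (qq a G) atTop (Kq z.im (x₂ + η / 2) (η / 2)) := by
    rw [Metric.tendstoUniformlyOn_iff] at hglim ⊢
    intro ε hε
    filter_upwards [hglim ε hε] with N hN w hw
    have := hN w hw
    rw [dist_eq_norm] at this ⊢
    have e : qq a G w - q N w = G w - g N w := by
      rw [hqe]; unfold qq; ring
    rw [e]; exact this
  obtain ⟨k, hk⟩ : ∃ k : ℝ, k = 1 - V := ⟨_, rfl⟩
  have hsin : Complex.sin z ≠ 0 := by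
    intro h0
    obtain ⟨m, hm⟩ := Complex.sin_eq_zero_iff.1 h0
    have : z.im = 0 := by
      rw [hm]
      have : (m : ℂ) * π = ((m * π : ℝ) : ℂ) := by push_cast; ring
      rw [this, Complex.ofReal_im]
    linarith
  have hlap := Pool.Agent.W588.HT.lapc (fun N w => q N w + k) pp (fun w => qq a G w + k)
    (fun w => 2 * Complex.sin w)
    W (-x₂) x₂ z hWo (by
      filter_upwards [hqd] with N hN
      exact (hN.mono (hWK.trans hKR)).add_const _)
    ((hqqd.mono (hWK.trans (hKR.trans hRU))).add_const _) (by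
      have := hqlim.mono hWK
      rw [Metric.tendstoUniformlyOn_iff] at this ⊢
      intro ε hε
      filter_upwards [this ε hε] with N hN w hw
      have := hN w hw
      rw [dist_add_right]
      exact this) (by
      filter_upwards [eventually_gt_atTop 0] with N hN
      exact pp_diff hN (fun w hw => by linarith [(hWim w hw).1])) (by fun_prop)
    (pp_lim (h := z.im / 2) (H := 2 * z.im) (by linarith) hWim)
    (by linarith [(abs_lt.1 hzr).1]) (by linarith [(abs_lt.1 hzr).2]) (by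
      intro x hx1 hx2
      rw [hW]
      refine ⟨?_, ?_⟩
      · rw [xy_re]
        have : |x| ≤ x₂ := abs_le.2 ⟨hx1, hx2⟩
        linarith
      · rw [xy_im, sub_self, abs_zero]
        positivity) (by
      rw [deriv_add_const]; exact hcrit) (by
      have : deriv (fun w => qq a G w + (k : ℂ)) = deriv (qq a G) := by
        funext w; rw [deriv_add_const]
      rw [this]; exact hneg) (mul_ne_zero two_ne_zero hsin) (by
      intro x hx1 hx2 hxz
      rw [Complex.add_re, Complex.add_re, Complex.ofReal_re]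
      have := hlt (x + z.im * Complex.I) (Or.inr (Or.inr (Or.inr ⟨by
        rw [xy_re]; exact abs_le.2 ⟨hx1, hx2⟩, xy_im _ _⟩))) (by
        intro h
        apply hxz
        have := congrArg Complex.re h
        rwa [xy_re] at this)
      rw [hV] at this
      linarith)
  have hVk : (qq a G z + (k : ℂ)).re = 1 := by
    rw [Complex.add_re, Complex.ofReal_re, ← hV, hk]; ring
  rw [hVk] at hlap
  -- the main term
  obtain ⟨M, hM⟩ : ∃ M : ℕ → ℂ, M = fun N => ∫ x in (-x₂)..x₂, pp N (x + z.im * Complex.I) *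
    Complex.exp (N * q N (x + z.im * Complex.I)) := ⟨_, rfl⟩
  have hMb := bds (M := M) hk (by
    intro N
    rw [hM, ← intervalIntegral.integral_const_mul]
    apply intervalIntegral.integral_congr
    intro x _
    show pp N (x + z.im * Complex.I) * Complex.exp (N * (q N (x + z.im * Complex.I) + k)) =
      Complex.exp (N * k) * (pp N (x + z.im * Complex.I) *
        Complex.exp (N * q N (x + z.im * Complex.I)))
    rw [mul_add, Complex.exp_add]
    ring) hlap
  -- the rest of the staircase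
  have hK3U : K3 x₁ x₂ y₁ z.im τ₁ ⊆ U := by
    intro w hw
    apply hPth
    rcases hw with h | h | h
    · exact Or.inl h
    · exact Or.inr (Or.inl h)
    · exact Or.inr (Or.inr (Or.inl h))
  have hK3c := K3_compact (x₁ := x₁) (x₂ := x₂) (y₁ := y₁) (y₂ := z.im) (τ₁ := τ₁) hx hτ1.le hτy hyz
  obtain ⟨κ1, hκ1, hs1⟩ := gap hK3c (φ := fun w => (qq a G w).re) (v := V)
    (Complex.continuous_re.comp_continuousOn (hqqd.continuousOn.mono hK3U)) (by
      intro w hw
      refine hlt w ?_ ?_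
      · rcases hw with h | h | h
        · exact Or.inl h
        · exact Or.inr (Or.inl h)
        · exact Or.inr (Or.inr (Or.inl h))
      · intro h
        rw [h] at hw
        rcases hw with h | h | h
        · linarith [h.1]
        · linarith [h.1]
        · linarith [h.1])
  obtain ⟨κ, hκ⟩ : ∃ κ : ℝ, κ = min (κ1 / 2) (min (V - (B + |(a : ℝ)| * τ₁ / 2)) (V - D)) := ⟨_, rfl⟩
  have hκ0 : 0 < κ := by
    rw [hκ]
    exact lt_min (by positivity) (lt_min (by linarith) (by linarith))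
  have hκa : κ ≤ κ1 / 2 := by rw [hκ]; exact min_le_left _ _
  have hκb : κ ≤ V - (B + |(a : ℝ)| * τ₁ / 2) := by
    rw [hκ]; exact (min_le_right _ _).trans (min_le_left _ _)
  have hκc : κ ≤ V - D := by
    rw [hκ]; exact (min_le_right _ _).trans (min_le_right _ _)
  obtain ⟨C, hC, hub⟩ := Pool.Agent.W711.HT.upb a
  obtain ⟨C', hC', hub'⟩ := upp_bd Pool.Agent.W711.HT.upb a
  obtain ⟨E, hE⟩ : ∃ E : ℝ, E = 8 * Real.exp z.im := ⟨_, rfl⟩
  have hE0 : 0 < E := by rw [hE]; positivity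
  refine log_lim (M := fun N => (dd N * c N) * M N)
    (C := 2 * C' + C + (2 * x₁ + 2 * z.im) * E) (κ := κ) hκ0
    (by positivity) ?_ ?_
  · intro ε hε
    filter_upwards [hMb ε hε] with N h1
    rw [norm_mul, norm_mul, dd_norm, hc1, one_mul, one_mul]
    exact h1
  filter_upwards [hub x₁ hx1 hxπ.le, hub' 1 one_pos (by linarith [Real.pi_gt_three]),
    ev_inv hτ1, eventually_gt_atTop 0, hB, hD, hgd, hMW _ hK3U hK3c (κ1 / 2) (by positivity)] with
    N h1 h2 h3 h4 hb1 hb3 h7 h8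
  have hN' : (0 : ℝ) < N := by exact_mod_cast h4
  have hinv : (0 : ℝ) < 1 / N := by positivity
  obtain ⟨X, hX⟩ : ∃ X : ℝ, X = Real.exp (N * (V - κ)) := ⟨_, rfl⟩
  have hX0 : 0 < X := by rw [hX]; positivity
  rw [← hX]
  rw [upp_split h4 a (hP N).continuous (hPL N).continuous]
  have hDX : Real.exp (N * D) ≤ X := by
    rw [hX]
    apply Real.exp_le_exp.2
    exact mul_le_mul_of_nonneg_left (by linarith) hN'.le
  have haτ : 0 ≤ |(a : ℝ)| * τ₁ / 2 := by positivity
  have hBX : Real.exp (N * B) ≤ X := by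
    rw [hX]
    apply Real.exp_le_exp.2
    exact mul_le_mul_of_nonneg_left (by linarith) hN'.le
  -- the difference
  have t1 : ‖upp (1 / N) fun φ => Ea a N φ * (P N φ - PL N φ) * kr N φ‖ ≤ C' * X + C' * X := by
    refine h2 (fun φ => P N φ - PL N φ) X X ((hP N).continuous.sub (hPL N).continuous) ?_ ?_
    · intro x y hx hy
      exact (hb3 x y (by linarith [Real.pi_gt_three]) hy).trans hDX
    · intro x y _ hx hy
      exact (hb3 x y hx hy).trans hDX
  -- the part near the ends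
  have t2 := (h1 (PL N) X (hPL N).continuous).1 (by
    intro x y hx1 hx2 hy
    exact (hb1 x y hx1 hx2 (hy.trans h3)).trans hBX)
  -- the staircase
  have hd : ∀ w : ℂ, 0 < w.im → DifferentiableAt ℂ (fun w => Ea a N w * PL N w * kr N w) w :=
    fun w hw => ((Ea_diff a N w).mul (hPL N w)).mul (kr_diff h4 hw)
  have hP2 : ∀ w ∈ K3 x₁ x₂ y₁ z.im τ₁, 1 / (N : ℝ) ≤ w.im → w.im ≤ z.im →
      ‖Ea a N w * PL N w * kr N w‖ ≤ E * X := by
    intro w hw hw1 hw2
    rw [F_norm, hE]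
    refine mul_le_mul (pp_bd h4 hw1 hw2) ?_ (norm_nonneg _) (by positivity)
    obtain ⟨k1, k2⟩ := h8 w hw
    have k3 := (abs_le.1 k2).2
    have k4 : ‖PL N w‖ ≤ Real.exp (N * ((G w).re + κ1 / 2)) := by
      rw [← Real.log_le_iff_le_exp (norm_pos_iff.2 k1)]
      linarith
    rw [norm_mul, Complex.norm_exp]
    have k5 : ((N : ℂ) * (Complex.I * a * w ^ 2 / (4 * π) + Complex.I * w)).re =
        N * ((qq a G w).re - (G w).re) := by
      have e1 : ((N : ℂ) * (Complex.I * a * w ^ 2 / (4 * π) + Complex.I * w)) =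
          ((N : ℝ) : ℂ) * (qq a G w - G w) := by
        unfold qq
        push_cast
        ring
      rw [e1, Complex.re_ofReal_mul, Complex.sub_re]
    rw [k5]
    refine (mul_le_mul_of_nonneg_left k4 (Real.exp_pos _).le).trans ?_
    rw [← Real.exp_add, hX]
    apply Real.exp_le_exp.2
    rw [← mul_add]
    apply mul_le_mul_of_nonneg_left _ hN'.le
    have k6 := hs1 w hw
    linarith
  have t3 := stair hd hx2 hx hinv (h3.trans hτy) hyz (B := E * X) (by positivity)
    (by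
      intro w hw1 hw2 hw3
      rcases le_total w.im τ₁ with h | h
      · have := low_bd (a := a) h4 (H := z.im) hxπ.le (hτy.trans hyz) hb1 hw1 hw2 h
        refine this.trans ?_
        rw [hE]
        apply mul_le_mul_of_nonneg_left _ (by positivity)
        rw [hX, ← Real.exp_add]
        apply Real.exp_le_exp.2
        rw [← mul_add]
        apply mul_le_mul_of_nonneg_left _ hN'.le
        linarith
      · exact hP2 w (Or.inl ⟨hw1, h, hw3⟩) hw2 (hw3.trans hyz))
    (by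
      intro w hw1 hw2 hw3
      exact hP2 w (Or.inr (Or.inl ⟨hw1, hw2, hw3⟩)) (by rw [hw3]; exact h3.trans hτy)
        (by rw [hw3]; exact hyz))
    (by
      intro w hw1 hw2 hw3
      exact hP2 w (Or.inr (Or.inr ⟨hw1, hw2, hw3⟩)) ((h3.trans hτy).trans hw2) hw3)
  have e3 : (∫ x in (-x₂)..x₂, (fun w => Ea a N w * PL N w * kr N w) (x + z.im * Complex.I)) =
      (dd N * c N) * M N := by
    rw [hM]
    show _ = (dd N * c N) * ∫ x in (-x₂)..x₂, pp N (x + z.im * Complex.I) *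
      Complex.exp (N * q N (x + z.im * Complex.I))
    rw [← intervalIntegral.integral_const_mul]
    apply intervalIntegral.integral_congr
    intro x hx
    rw [Set.uIcc_of_le (by linarith)] at hx
    have hin : ((x : ℂ) + z.im * Complex.I) ∈ Rq z.im (x₂ + η) η := by
      refine ⟨?_, ?_⟩
      · rw [xy_re]
        have : |x| ≤ x₂ := abs_le.2 hx
        linarith
      · rw [xy_im, sub_self, abs_zero]
        exact hη
    obtain ⟨w, hw⟩ : ∃ w : ℂ, w = (x : ℂ) + z.im * Complex.I := ⟨_, rfl⟩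
    rw [← hw] at hin
    show Ea a N ((x : ℂ) + z.im * Complex.I) * PL N ((x : ℂ) + z.im * Complex.I) *
      kr N ((x : ℂ) + z.im * Complex.I) = (dd N * c N) * (pp N ((x : ℂ) + z.im * Complex.I) *
      Complex.exp (N * q N ((x : ℂ) + z.im * Complex.I)))
    rw [← hw]
    have e1 : Ea a N w * PL N w * kr N w = (Ea a N w * kr N w) * PL N w := by ring
    rw [e1, Ea_kr, h7.2 w hin, hqe]
    have e2 : Complex.exp (N * qq a (g N) w) =
        Complex.exp (N * (Complex.I * a * w ^ 2 / (4 * π) + Complex.I * w)) *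
          Complex.exp (N * g N w) := by
      rw [← Complex.exp_add]
      unfold qq
      congr 1
      ring
    rw [e2]
    ring
  obtain ⟨D0, hD0⟩ : ∃ D0 : ℂ, D0 = upp (1 / N) fun φ => Ea a N φ * (P N φ - PL N φ) * kr N φ :=
    ⟨_, rfl⟩
  obtain ⟨D1, hD1⟩ : ∃ D1 : ℂ, D1 = upp (1 / N) fun φ => Ea a N φ * PL N φ * kr N φ := ⟨_, rfl⟩
  obtain ⟨D2, hD2⟩ : ∃ D2 : ℂ, D2 = ∫ x in (-x₁)..x₁, Ea a N (x + (1 / N : ℝ) * Complex.I) *
    PL N (x + (1 / N : ℝ) * Complex.I) * kr N (x + (1 / N : ℝ) * Complex.I) := ⟨_, rfl⟩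
  rw [e3] at t3
  rw [← hD0] at t1 ⊢
  rw [← hD1] at t2 ⊢
  rw [← hD2] at t2
  have t3' : ‖D2 - (dd N * c N) * M N‖ ≤ (2 * x₁ + 2 * z.im) * (E * X) := by
    rw [hD2]
    exact t3
  have s1 : D0 + D1 - (dd N * c N) * M N = D0 + ((D1 - D2) + (D2 - (dd N * c N) * M N)) := by ring
  rw [s1]
  have s2 := norm_add_le D0 ((D1 - D2) + (D2 - (dd N * c N) * M N))
  have s3 := norm_add_le (D1 - D2) (D2 - (dd N * c N) * M N)
  have s7 : (2 * C' + C + (2 * x₁ + 2 * z.im) * E) * X =
      (C' * X + C' * X) + (C * X + (2 * x₁ + 2 * z.im) * (E * X)) := by ring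
  rw [s7]
  linarith

end Pool.Agent.N878.F
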