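import Pool.Agent.N561.A.Stm2
import Pool.Agent.W85.HT.Step
import Pool.Agent.W503.HT.Upb

/-!
# Small vertices: the outer integral on a staircase path
-/

set_option autoImplicit false
set_option maxHeartbeats 1000000

namespace Pool.Agent.N878.F

open Filter Finset Topology Metric MeasureTheory
open Pool.Agent.W711.HT
open Pool.Agent.W85.HT
open scoped Real

/-- integrability on the three segments -/
def IntP (h : ℝ) (f : ℂ → ℂ) : Prop :=
  IntervalIntegrable (fun y : ℝ => f (-π + y * Complex.I)) volume 0 h ∧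
  IntervalIntegrable (fun x : ℝ => f (x + h * Complex.I)) volume (-π) π ∧
  IntervalIntegrable (fun y : ℝ => f (π + y * Complex.I)) volume 0 h

/-- the cosine does not vanish on the path -/
lemma cos_ne1 (N : ℕ) (y : ℝ) : Complex.cos (N * ((-π + y * Complex.I) + π) / 2) ≠ 0 := by
  intro h
  obtain ⟨k, hk⟩ := Complex.cos_eq_zero_iff.1 h
  have h1 := congrArg Complex.re hk
  have e1 : ((N : ℂ) * ((-π + y * Complex.I) + π) / 2) = ((N * y / 2 : ℝ) : ℂ) * Complex.I := by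
    push_cast
    ring
  have e2 : ((2 * (k : ℂ) + 1) * π / 2) = (((2 * (k : ℝ) + 1) * π / 2 : ℝ) : ℂ) := by
    push_cast
    ring
  rw [e1, e2, Complex.re_ofReal_mul, Complex.I_re, mul_zero, Complex.ofReal_re] at h1
  have h2 : (2 * (k : ℝ) + 1) = 0 := by
    have hp := Real.pi_pos
    by_contra hne
    exact (div_ne_zero (mul_ne_zero hne hp.ne') two_ne_zero) h1.symm
  have h3 : (2 * k + 1 : ℤ) = 0 := by exact_mod_cast h2
  omega

lemma cos_ne3 (N : ℕ) (y : ℝ) : Complex.cos (N * ((π + y * Complex.I) + π) / 2) ≠ 0 := by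
  intro h
  obtain ⟨k, hk⟩ := Complex.cos_eq_zero_iff.1 h
  have h1 := congrArg Complex.re hk
  have e1 : ((N : ℂ) * ((π + y * Complex.I) + π) / 2) = ((N * π : ℝ) : ℂ) +
      ((N * y / 2 : ℝ) : ℂ) * Complex.I := by
    push_cast
    ring
  have e2 : ((2 * (k : ℂ) + 1) * π / 2) = (((2 * (k : ℝ) + 1) * π / 2 : ℝ) : ℂ) := by
    push_cast
    ring
  rw [e1, e2, Complex.add_re, Complex.re_ofReal_mul, Complex.I_re, mul_zero, Complex.ofReal_re,
    Complex.ofReal_re, add_zero] at h1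
  have hp := Real.pi_pos
  have h2 : (2 * (k : ℝ) + 1) = 2 * N := by
    have h4 : π * (2 * (k : ℝ) + 1 - 2 * N) = 0 := by linear_combination (-2) * h1
    have := (mul_eq_zero.1 h4).resolve_left hp.ne'
    linarith
  have h3 : (2 * k + 1 : ℤ) = 2 * N := by exact_mod_cast h2
  omega

lemma cos_ne2 {N : ℕ} (hN : 0 < N) (x : ℝ) :
    Complex.cos (N * ((x + ((1 / N : ℝ) : ℂ) * Complex.I) + π) / 2) ≠ 0 := by
  intro h
  obtain ⟨k, hk⟩ := Complex.cos_eq_zero_iff.1 h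
  have hN0 : (N : ℂ) ≠ 0 := by exact_mod_cast hN.ne'
  have h1 := congrArg Complex.im hk
  have e1 : ((N : ℂ) * ((x + ((1 / N : ℝ) : ℂ) * Complex.I) + π) / 2) = ((N * (x + π) / 2 : ℝ) : ℂ) +
      ((1 / 2 : ℝ) : ℂ) * Complex.I := by
    push_cast
    field_simp
    ring
  have e2 : ((2 * (k : ℂ) + 1) * π / 2) = (((2 * (k : ℝ) + 1) * π / 2 : ℝ) : ℂ) := by
    push_cast
    ring
  rw [e1, e2, Complex.add_im, Complex.im_ofReal_mul, Complex.I_im, mul_one, Complex.ofReal_im,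
    Complex.ofReal_im, zero_add] at h1
  norm_num at h1

lemma kr_cont_of {N : ℕ} {f : ℝ → ℂ} (hf : Continuous f)
    (hc : ∀ t, Complex.cos (N * (f t + π) / 2) ≠ 0) : Continuous fun t => kr N (f t) := by
  unfold kr
  refine Continuous.div ?_ ?_ ?_
  · exact continuous_const.mul (Complex.continuous_sin.comp hf)
  · exact continuous_const.mul ((Complex.continuous_cos.comp
      ((continuous_const.mul (hf.add continuous_const)).div_const 2)).pow 2)
  · intro t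
    exact mul_ne_zero (by norm_num) (pow_ne_zero 2 (hc t))

lemma IntP_kr {N : ℕ} (hN : 0 < N) {g : ℂ → ℂ} (hg : Continuous g) :
    IntP (1 / N) (fun ψ => g ψ * kr N ψ) := by
  have c1 : Continuous fun y : ℝ => (-π + y * Complex.I : ℂ) := by fun_prop
  have c2 : Continuous fun x : ℝ => ((x : ℂ) + ((1 / N : ℝ) : ℂ) * Complex.I : ℂ) := by fun_prop
  have c3 : Continuous fun y : ℝ => (π + y * Complex.I : ℂ) := by fun_prop
  refine ⟨?_, ?_, ?_⟩
  · exact ((hg.comp c1).mul (kr_cont_of c1 (cos_ne1 N))).intervalIntegrable _ _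
  · exact ((hg.comp c2).mul (kr_cont_of c2 (cos_ne2 hN))).intervalIntegrable _ _
  · exact ((hg.comp c3).mul (kr_cont_of c3 (cos_ne3 N))).intervalIntegrable _ _

lemma upp_add {h : ℝ} {f g : ℂ → ℂ} (hf : IntP h f) (hg : IntP h g) :
    upp h (fun ψ => f ψ + g ψ) = upp h f + upp h g := by
  unfold upp
  rw [intervalIntegral.integral_add hf.1 hg.1, intervalIntegral.integral_add hf.2.1 hg.2.1,
    intervalIntegral.integral_add hf.2.2 hg.2.2]
  ring

lemma kr_diff {N : ℕ} (hN : 0 < N) {w : ℂ} (hw : 0 < w.im) : DifferentiableAt ℂ (kr N) w := by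
  have h1 : kr N = fun w => uu N w * pp N w := by
    funext w
    exact kr_eq N w
  rw [h1]
  have h2 : DifferentiableAt ℂ (pp N) w :=
    (pp_diff hN (U := {w : ℂ | 0 < w.im}) (fun w hw => hw)).differentiableAt
      ((isOpen_lt continuous_const Complex.continuous_im).mem_nhds hw)
  exact (uu_diff N w).mul h2

lemma Ea_diff (a : ℤ) (N : ℕ) : Differentiable ℂ (Ea a N) := by
  unfold Ea
  fun_prop

/-- splitting of the integral into the difference and the lower part -/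
lemma upp_split {N : ℕ} (hN : 0 < N) (a : ℤ) {P PL : ℂ → ℂ} (hP : Continuous P)
    (hPL : Continuous PL) : (upp (1 / N) fun φ => Ea a N φ * P φ * kr N φ) =
      (upp (1 / N) fun φ => Ea a N φ * (P φ - PL φ) * kr N φ) +
        upp (1 / N) fun φ => Ea a N φ * PL φ * kr N φ := by
  have hE : Continuous (Ea a N) := (Ea_diff a N).continuous
  have k0 := upp_add (h := 1 / N) (f := fun φ => Ea a N φ * (P φ - PL φ) * kr N φ)
    (g := fun φ => Ea a N φ * PL φ * kr N φ)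
    (IntP_kr (g := fun φ => Ea a N φ * (P φ - PL φ)) hN (hE.mul (hP.sub hPL)))
    (IntP_kr (g := fun φ => Ea a N φ * PL φ) hN (hE.mul hPL))
  rw [← k0]
  congr 1
  funext φ
  ring

/-- the factor `(-1)^N` -/
noncomputable def dd (N : ℕ) : ℂ := Complex.exp (Complex.I * N * π)

lemma dd_norm (N : ℕ) : ‖dd N‖ = 1 := by
  unfold dd
  rw [Complex.norm_exp]
  simp

lemma Ea_kr (a : ℤ) (N : ℕ) (w : ℂ) : Ea a N w * kr N w =
    dd N * (pp N w * Complex.exp (N * (Complex.I * a * w ^ 2 / (4 * π) + Complex.I * w))) := by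
  rw [kr_eq]
  unfold Ea dd uu
  have e : Complex.exp (N * (Complex.I * a * w ^ 2 / (4 * π) + Complex.I * w)) =
      Complex.exp (Complex.I * a * N * w ^ 2 / (4 * π)) * Complex.exp (Complex.I * N * w) := by
    rw [← Complex.exp_add]
    congr 1
    ring
  have e2 : Complex.exp (Complex.I * N * (w + π)) =
      Complex.exp (Complex.I * N * w) * Complex.exp (Complex.I * N * π) := by
    rw [← Complex.exp_add]
    congr 1
    ring
  rw [e, e2]
  ring

lemma F_norm (a : ℤ) (N : ℕ) (w p : ℂ) : ‖Ea a N w * p * kr N w‖ =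
    ‖pp N w‖ *
      ‖Complex.exp (N * (Complex.I * a * w ^ 2 / (4 * π) + Complex.I * w)) * p‖ := by
  have e : Ea a N w * p * kr N w = (Ea a N w * kr N w) * p := by ring
  rw [e, Ea_kr, norm_mul, norm_mul, norm_mul, norm_mul, dd_norm, one_mul]
  ring

lemma Ea_norm (a : ℤ) (N : ℕ) (w : ℂ) :
    ‖Ea a N w‖ = Real.exp (-(a * N * w.re * w.im) / (2 * π)) := by
  have hpi : (π : ℂ) ≠ 0 := by exact_mod_cast Real.pi_ne_zero
  unfold Ea
  rw [Complex.norm_exp]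
  congr 1
  have e : Complex.I * a * N * w ^ 2 / (4 * π) =
      ((-(a * N * w.re * w.im) / (2 * π) : ℝ) : ℂ) +
        ((a * N * (w.re ^ 2 - w.im ^ 2) / (4 * π) : ℝ) : ℂ) * Complex.I := by
    have hw : w = w.re + w.im * Complex.I := (Complex.re_add_im w).symm
    obtain ⟨x, hx⟩ : ∃ x : ℝ, x = w.re := ⟨_, rfl⟩
    obtain ⟨y, hy⟩ : ∃ y : ℝ, y = w.im := ⟨_, rfl⟩
    rw [← hx, ← hy] at hw ⊢
    rw [hw]
    push_cast
    field_simp
    linear_combination (a * N * (4 * (x : ℂ) * y + 2 * Complex.I * y ^ 2)) * Complex.I_sq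
  rw [e]
  simp only [Complex.add_re, Complex.mul_re, Complex.ofReal_re, Complex.ofReal_im,
      Complex.I_re, Complex.I_im, mul_zero, zero_mul, sub_zero, add_zero]

lemma Ea_le (a : ℤ) (N : ℕ) {w : ℂ} {τ : ℝ} (h1 : |w.re| ≤ π) (h2 : |w.im| ≤ τ) :
    ‖Ea a N w‖ ≤ Real.exp (N * (|(a : ℝ)| * τ / 2)) := by
  have hpi := Real.pi_pos
  rw [Ea_norm]
  apply Real.exp_le_exp.2
  refine (le_abs_self _).trans ?_
  have hN : (0 : ℝ) ≤ N := Nat.cast_nonneg N
  have hτ : 0 ≤ τ := (abs_nonneg _).trans h2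
  rw [abs_div, abs_neg, abs_mul, abs_mul, abs_mul, abs_of_nonneg hN,
    abs_of_pos (mul_pos two_pos hpi), div_le_iff₀ (mul_pos two_pos hpi)]
  have h3 : |w.re| * |w.im| ≤ π * τ := mul_le_mul h1 h2 (abs_nonneg _) hpi.le
  have h4 : (|(a : ℝ)| * N) * (|w.re| * |w.im|) ≤ (|(a : ℝ)| * N) * (π * τ) :=
    mul_le_mul_of_nonneg_left h3 (by positivity)
  nlinarith [h4]

/-- three adjacent intervals -/
lemma three {f : ℝ → ℂ} (a b : ℝ) (hf : Continuous f) : ∫ x in (-a)..a, f x =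
    (∫ x in (-a)..(-b), f x) + (∫ x in (-b)..b, f x) + ∫ x in b..a, f x := by
  rw [intervalIntegral.integral_add_adjacent_intervals (hf.intervalIntegrable _ _)
    (hf.intervalIntegrable _ _), intervalIntegral.integral_add_adjacent_intervals
    (hf.intervalIntegrable _ _) (hf.intervalIntegrable _ _)]

/-- deformation of the bottom segment into the staircase, with a bound of the difference -/
lemma stair {f : ℂ → ℂ} (hf : ∀ w : ℂ, 0 < w.im → DifferentiableAt ℂ f w)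
    {x₁ x₂ h y₁ y₂ B : ℝ}
    (hx2 : 0 < x₂) (hx : x₂ ≤ x₁) (hh : 0 < h) (hy1 : h ≤ y₁) (hy2 : y₁ ≤ y₂) (hB : 0 ≤ B)
    (b1 : ∀ w : ℂ, |w.re| = x₁ → h ≤ w.im → w.im ≤ y₁ → ‖f w‖ ≤ B)
    (b2 : ∀ w : ℂ, x₂ ≤ |w.re| → |w.re| ≤ x₁ → w.im = y₁ → ‖f w‖ ≤ B)
    (b3 : ∀ w : ℂ, |w.re| = x₂ → y₁ ≤ w.im → w.im ≤ y₂ → ‖f w‖ ≤ B) :
    ‖(∫ x in (-x₁)..x₁, f (x + h * Complex.I)) -
      ∫ x in (-x₂)..x₂, f (x + y₂ * Complex.I)‖ ≤ (2 * x₁ + 2 * y₂) * B := by
  have r1 := rect_eq (f := f) (ρ := x₁) (h := h) (H := y₁) (by linarith) hy1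
    (fun w _ _ h3 _ => hf w (lt_of_lt_of_le hh h3))
  have r2 := rect_eq (f := f) (ρ := x₂) (h := y₁) (H := y₂) (by linarith) hy2
    (fun w _ _ h3 _ => hf w (lt_of_lt_of_le (lt_of_lt_of_le hh hy1) h3))
  have hc : Continuous fun x : ℝ => f (x + y₁ * Complex.I) := by
    have c1 : Continuous fun x : ℝ => ((x : ℂ) + y₁ * Complex.I) := by fun_prop
    rw [continuous_iff_continuousAt]
    intro x
    have k1 : ContinuousAt f ((x : ℂ) + y₁ * Complex.I) :=
      (hf _ (by rw [xy_im]; exact lt_of_lt_of_le hh hy1)).continuousAt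
    exact ContinuousAt.comp (f := fun x : ℝ => ((x : ℂ) + y₁ * Complex.I)) (g := f) k1
      c1.continuousAt
  have r3 := three x₁ x₂ hc
  obtain ⟨A1, hA1⟩ : ∃ A1 : ℂ, A1 = ∫ y in h..y₁, f (-x₁ + y * Complex.I) := ⟨_, rfl⟩
  obtain ⟨A2, hA2⟩ : ∃ A2 : ℂ, A2 = ∫ y in h..y₁, f (x₁ + y * Complex.I) := ⟨_, rfl⟩
  obtain ⟨A3, hA3⟩ : ∃ A3 : ℂ, A3 = ∫ y in y₁..y₂, f (-x₂ + y * Complex.I) := ⟨_, rfl⟩
  obtain ⟨A4, hA4⟩ : ∃ A4 : ℂ, A4 = ∫ y in y₁..y₂, f (x₂ + y * Complex.I) := ⟨_, rfl⟩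
  obtain ⟨A5, hA5⟩ : ∃ A5 : ℂ, A5 = ∫ x in (-x₁)..(-x₂), f (x + y₁ * Complex.I) := ⟨_, rfl⟩
  obtain ⟨A6, hA6⟩ : ∃ A6 : ℂ, A6 = ∫ x in x₂..x₁, f (x + y₁ * Complex.I) := ⟨_, rfl⟩
  rw [← hA1, ← hA2] at r1
  rw [← hA3, ← hA4] at r2
  rw [← hA5, ← hA6] at r3
  have e : (∫ x in (-x₁)..x₁, f (x + h * Complex.I)) -
      (∫ x in (-x₂)..x₂, f (x + y₂ * Complex.I)) = (A5 + A6) + (Complex.I * (A1 - A2) +
        Complex.I * (A3 - A4)) := by
    rw [r1, r3, r2]
    ring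
  rw [e]
  have n1 : ‖A1‖ ≤ B * (y₁ - h) := by
    rw [hA1]
    refine (intervalIntegral.norm_integral_le_of_norm_le_const (C := B) ?_).trans ?_
    · intro y hy
      rw [Set.uIoc_of_le hy1] at hy
      have e1 : ((-x₁ : ℂ) + y * Complex.I) = (((-x₁ : ℝ) : ℂ) + y * Complex.I) := by push_cast; ring
      rw [e1]
      exact b1 _ (by rw [xy_re, abs_neg, abs_of_nonneg (by linarith)]) (by rw [xy_im]; exact hy.1.le)
        (by rw [xy_im]; exact hy.2)
    · rw [abs_of_nonneg (by linarith)]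
  have n2 : ‖A2‖ ≤ B * (y₁ - h) := by
    rw [hA2]
    refine (intervalIntegral.norm_integral_le_of_norm_le_const (C := B) ?_).trans ?_
    · intro y hy
      rw [Set.uIoc_of_le hy1] at hy
      exact b1 _ (by rw [xy_re, abs_of_nonneg (by linarith)]) (by rw [xy_im]; exact hy.1.le)
        (by rw [xy_im]; exact hy.2)
    · rw [abs_of_nonneg (by linarith)]
  have n3 : ‖A3‖ ≤ B * (y₂ - y₁) := by
    rw [hA3]
    refine (intervalIntegral.norm_integral_le_of_norm_le_const (C := B) ?_).trans ?_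
    · intro y hy
      rw [Set.uIoc_of_le hy2] at hy
      have e1 : ((-x₂ : ℂ) + y * Complex.I) = (((-x₂ : ℝ) : ℂ) + y * Complex.I) := by push_cast; ring
      rw [e1]
      exact b3 _ (by rw [xy_re, abs_neg, abs_of_nonneg (by linarith)]) (by rw [xy_im]; exact hy.1.le)
        (by rw [xy_im]; exact hy.2)
    · rw [abs_of_nonneg (by linarith)]
  have n4 : ‖A4‖ ≤ B * (y₂ - y₁) := by
    rw [hA4]
    refine (intervalIntegral.norm_integral_le_of_norm_le_const (C := B) ?_).trans ?_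
    · intro y hy
      rw [Set.uIoc_of_le hy2] at hy
      exact b3 _ (by rw [xy_re, abs_of_nonneg (by linarith)]) (by rw [xy_im]; exact hy.1.le)
        (by rw [xy_im]; exact hy.2)
    · rw [abs_of_nonneg (by linarith)]
  have n5 : ‖A5‖ ≤ B * (x₁ - x₂) := by
    rw [hA5]
    refine (intervalIntegral.norm_integral_le_of_norm_le_const (C := B) ?_).trans ?_
    · intro x hx'
      rw [Set.uIoc_of_le (by linarith)] at hx'
      have hx0 : x ≤ 0 := by linarith [hx'.2]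
      exact b2 _ (by rw [xy_re, abs_of_nonpos hx0]; linarith [hx'.2])
        (by rw [xy_re, abs_of_nonpos hx0]; linarith [hx'.1]) (by rw [xy_im])
    · rw [abs_of_nonneg (by linarith)]
      apply le_of_eq
      ring
  have n6 : ‖A6‖ ≤ B * (x₁ - x₂) := by
    rw [hA6]
    refine (intervalIntegral.norm_integral_le_of_norm_le_const (C := B) ?_).trans ?_
    · intro x hx'
      rw [Set.uIoc_of_le hx] at hx'
      have hx0 : 0 ≤ x := by linarith [hx'.1]
      exact b2 _ (by rw [xy_re, abs_of_nonneg hx0]; linarith [hx'.1])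
        (by rw [xy_re, abs_of_nonneg hx0]; exact hx'.2) (by rw [xy_im])
    · rw [abs_of_nonneg (by linarith)]
  have m1 : ‖A5 + A6‖ ≤ ‖A5‖ + ‖A6‖ := norm_add_le _ _
  have m2 : ‖Complex.I * (A1 - A2)‖ ≤ ‖A1‖ + ‖A2‖ := by
    rw [norm_mul, Complex.norm_I, one_mul]
    exact norm_sub_le _ _
  have m3 : ‖Complex.I * (A3 - A4)‖ ≤ ‖A3‖ + ‖A4‖ := by
    rw [norm_mul, Complex.norm_I, one_mul]
    exact norm_sub_le _ _
  refine (norm_add_le _ _).trans ?_
  have m4 := norm_add_le (Complex.I * (A1 - A2)) (Complex.I * (A3 - A4))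
  have m5 : 0 ≤ B * h := by positivity
  have m6 : 0 ≤ B * x₂ := by positivity
  nlinarith

lemma ev_inv {τ : ℝ} (hτ : 0 < τ) : ∀ᶠ N : ℕ in atTop, (1 : ℝ) / N ≤ τ := by
  have : Tendsto (fun N : ℕ => (1 : ℝ) / (N : ℝ)) atTop (𝓝 0) :=
    tendsto_const_div_atTop_nhds_zero_nat _
  exact (this.eventually_lt_const hτ).mono (fun N hN => hN.le)

/-- the function on the first vertical piece, below `τ₁` -/
lemma low_bd {a : ℤ} {N : ℕ} (hN : 0 < N) {PL : ℂ → ℂ} {x₁ τ₁ H B : ℝ}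
    (hx : x₁ ≤ π) (hH : τ₁ ≤ H)
    (hB : ∀ x y : ℝ, x₁ ≤ |x| → |x| ≤ π → |y| ≤ τ₁ → ‖PL (x + y * Complex.I)‖ ≤ B)
    {w : ℂ} (hw1 : |w.re| = x₁) (hw2 : 1 / (N : ℝ) ≤ w.im) (hw3 : w.im ≤ τ₁) :
    ‖Ea a N w * PL w * kr N w‖ ≤ 8 * Real.exp H * (Real.exp (N * (|(a : ℝ)| * τ₁ / 2)) * B) := by
  have hN' : (0 : ℝ) < N := by exact_mod_cast hN
  have h0 : 0 < w.im := lt_of_lt_of_le (by positivity) hw2
  have k1 := Ea_le a N (w := w) (τ := τ₁) (by rw [hw1]; exact hx) (by rw [abs_of_pos h0]; exact hw3)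
  have k2 : ‖PL w‖ ≤ B := by
    have := hB w.re w.im hw1.ge (by rw [hw1]; exact hx) (by rw [abs_of_pos h0]; exact hw3)
    rwa [Complex.re_add_im] at this
  have k3 : ‖kr N w‖ ≤ 8 * Real.exp H := by
    rw [kr_eq, norm_mul]
    have := pp_bd hN (H := H) hw2 (hw3.trans hH)
    have h2 := (uu_lt hN h0).le
    calc ‖uu N w‖ * ‖pp N w‖ ≤ 1 * (8 * Real.exp H) :=
          mul_le_mul h2 this (norm_nonneg _) zero_le_one
      _ = _ := one_mul _
  rw [norm_mul, norm_mul, mul_comm]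
  exact mul_le_mul k3 (mul_le_mul k1 k2 (norm_nonneg _) (Real.exp_pos _).le)
    (by positivity) (by positivity)

theorem outb : Pool.Agent.N561.S_OUTB := by
  intro a x₁ x₂ y₁ y₂ τ₁ hx2 hx hxπ hτ1 hτy hy ε hε
  have hπ := Real.pi_pos
  have hx1 : 0 < x₁ := lt_of_lt_of_le hx2 hx
  have hy1 : 0 < y₁ := lt_of_lt_of_le hτ1 hτy
  have hy2 : 0 < y₂ := lt_of_lt_of_le hy1 hy
  obtain ⟨C, hC, hub⟩ := Pool.Agent.W711.HT.upb a
  obtain ⟨C', hC', hub'⟩ := upp_bd Pool.Agent.W711.HT.upb a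
  obtain ⟨E, hE⟩ : ∃ E : ℝ, E = 8 * Real.exp y₂ := ⟨_, rfl⟩
  have hE0 : 0 < E := by rw [hE]; positivity
  filter_upwards [hub x₁ hx1 hxπ.le, hub' 1 one_pos (by linarith [Real.pi_gt_three]),
    ev_inv hτ1, eventually_gt_atTop 0,
    ev_exp hε (2 * C' + C + (2 * x₁ + 2 * y₂) * E + 2 * x₂ * E)] with
    N h1 h2 h3 h4 h5 P PL V hP hPL hb1 hb2 hb3
  have hN' : (0 : ℝ) < N := by exact_mod_cast h4
  have hinv : (0 : ℝ) < 1 / N := by positivity
  obtain ⟨X, hX⟩ : ∃ X : ℝ, X = Real.exp (N * V) := ⟨_, rfl⟩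
  have hX0 : 0 < X := by rw [hX]; positivity
  rw [← hX] at hb2 hb3
  rw [upp_split h4 a hP.continuous hPL.continuous]
  -- the difference
  have t1 : ‖upp (1 / N) fun φ => Ea a N φ * (P φ - PL φ) * kr N φ‖ ≤ C' * X + C' * X := by
    refine h2 (fun φ => P φ - PL φ) X X (hP.continuous.sub hPL.continuous) ?_ ?_
    · intro x y hx hy
      exact hb3 x y (by linarith [Real.pi_gt_three]) hy
    · intro x y _ hx hy
      exact hb3 x y hx hy
  -- the part near the ends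
  have hle : Real.exp (N * (V - |(a : ℝ)| * τ₁ / 2)) ≤ X := by
    rw [hX]
    apply Real.exp_le_exp.2
    apply mul_le_mul_of_nonneg_left _ hN'.le
    have : 0 ≤ |(a : ℝ)| * τ₁ / 2 := by positivity
    linarith
  have t2 := (h1 PL X hPL.continuous).1 (by
    intro x y hx1 hx2 hy
    exact (hb1 x y hx1 hx2 (hy.trans h3)).trans hle)
  -- the staircase
  have hd : ∀ w : ℂ, 0 < w.im → DifferentiableAt ℂ (fun w => Ea a N w * PL w * kr N w) w :=
    fun w hw => ((Ea_diff a N w).mul (hPL w)).mul (kr_diff h4 hw)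
  have hP2 : ∀ w ∈ Pool.Agent.N561.Pth x₁ x₂ y₁ y₂ τ₁, 1 / (N : ℝ) ≤ w.im → w.im ≤ y₂ →
      ‖Ea a N w * PL w * kr N w‖ ≤ E * X := by
    intro w hw hw1 hw2
    rw [F_norm, hE]
    exact mul_le_mul (pp_bd h4 hw1 hw2) (hb2 w hw) (norm_nonneg _) (by positivity)
  have t3 := stair hd hx2 hx hinv (h3.trans hτy) hy (B := E * X) (by positivity)
    (by
      intro w hw1 hw2 hw3
      rcases le_total w.im τ₁ with h | h
      · have := low_bd (a := a) h4 (H := y₂) hxπ.le (hτy.trans hy) hb1 hw1 hw2 h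
        refine this.trans (le_of_eq ?_)
        rw [hE, hX, ← Real.exp_add]
        congr 2
        ring
      · exact hP2 w (Or.inl ⟨hw1, h, hw3⟩) hw2 (hw3.trans hy))
    (by
      intro w hw1 hw2 hw3
      exact hP2 w (Or.inr (Or.inl ⟨hw1, hw2, hw3⟩)) (by rw [hw3]; exact h3.trans hτy)
        (by rw [hw3]; exact hy))
    (by
      intro w hw1 hw2 hw3
      exact hP2 w (Or.inr (Or.inr (Or.inl ⟨hw1, hw2, hw3⟩))) ((h3.trans hτy).trans hw2) hw3)
  have t4 : ‖∫ x in (-x₂)..x₂, (fun w => Ea a N w * PL w * kr N w) (x + y₂ * Complex.I)‖ ≤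
      2 * x₂ * (E * X) := by
    refine (intervalIntegral.norm_integral_le_of_norm_le_const (C := E * X) ?_).trans ?_
    · intro x hx'
      rw [Set.uIoc_of_le (by linarith)] at hx'
      exact hP2 _ (Or.inr (Or.inr (Or.inr ⟨by rw [xy_re]; exact abs_le.2 ⟨hx'.1.le, hx'.2⟩,
        xy_im _ _⟩))) (by rw [xy_im]; exact (h3.trans hτy).trans hy) (by rw [xy_im])
    · rw [abs_of_nonneg (by linarith)]
      apply le_of_eq
      ring
  obtain ⟨D0, hD0⟩ : ∃ D0 : ℂ, D0 = upp (1 / N) fun φ => Ea a N φ * (P φ - PL φ) * kr N φ :=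
    ⟨_, rfl⟩
  obtain ⟨D1, hD1⟩ : ∃ D1 : ℂ, D1 = upp (1 / N) fun φ => Ea a N φ * PL φ * kr N φ := ⟨_, rfl⟩
  obtain ⟨D2, hD2⟩ : ∃ D2 : ℂ, D2 = ∫ x in (-x₁)..x₁, Ea a N (x + (1 / N : ℝ) * Complex.I) *
    PL (x + (1 / N : ℝ) * Complex.I) * kr N (x + (1 / N : ℝ) * Complex.I) := ⟨_, rfl⟩
  obtain ⟨D3, hD3⟩ : ∃ D3 : ℂ, D3 = ∫ x in (-x₂)..x₂,
    (fun w => Ea a N w * PL w * kr N w) (x + y₂ * Complex.I) := ⟨_, rfl⟩
  rw [← hD0] at t1 ⊢
  rw [← hD1] at t2 ⊢
  rw [← hD2] at t2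
  have t3' : ‖D2 - D3‖ ≤ (2 * x₁ + 2 * y₂) * (E * X) := by
    rw [hD2, hD3]
    exact t3
  rw [← hD3] at t4
  have s1 : D0 + D1 = D0 + ((D1 - D2) + ((D2 - D3) + D3)) := by ring
  rw [s1]
  have s2 := norm_add_le D0 ((D1 - D2) + ((D2 - D3) + D3))
  have s3 := norm_add_le (D1 - D2) ((D2 - D3) + D3)
  have s4 := norm_add_le (D2 - D3) D3
  have s5 : Real.exp (N * (V + ε)) = Real.exp (ε * N) * X := by
    rw [hX, ← Real.exp_add]
    congr 1
    ring
  rw [s5]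
  have s6 := mul_le_mul_of_nonneg_right h5 hX0.le
  have s7 : (2 * C' + C + (2 * x₁ + 2 * y₂) * E + 2 * x₂ * E) * X =
      (C' * X + C' * X) + (C * X + ((2 * x₁ + 2 * y₂) * (E * X) + 2 * x₂ * (E * X))) := by ring
  rw [s7] at s6
  linarith

end Pool.Agent.N878.F
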