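import Pool.Agent.H916R2.Descent

/-!
The conjugates of the character `{1, 31, 55, 71, 81, 91}` of degree `110`, in degree `330`.
-/

set_option autoImplicit false

namespace Pool.Agent.N878.F

open Finset Pool.Agent.H916R2

/-- squares and nonsquares modulo 11 -/
def QN (e : Bool) : Finset ℕ := if e then {1, 3, 4, 5, 9} else {2, 6, 7, 8, 10}

/-- the residues modulo `165` which are `0` modulo `3`, `d` modulo `5` and of class `e` modulo 11 -/
def SS (d : ℕ) (e : Bool) : Finset (ZMod 165) :=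
  univ.filter (fun x : ZMod 165 => x.val % 3 = 0 ∧ x.val % 5 = d ∧ x.val % 11 ∈ QN e)

section

variable {Q : Type} [AddCommGroup Q] {c : ZMod 165 → Q}

lemma dist_dec : ∀ d ∈ ({1, 2, 3, 4} : Finset ℕ),
    (Multiset.range 11).map (fun i : ℕ => ((66 * d : ℕ) : ZMod 165) + (i : ZMod 165) * ((15 : ℕ) : ZMod 165)) =
      ((66 * d : ℕ) : ZMod 165) ::ₘ ((SS d true).val + (SS d false).val) := by
  decide +kernel

lemma Y_add (hc : OddDist c) {d : ℕ} (hd : d ∈ ({1, 2, 3, 4} : Finset ℕ)) :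
    ∑ x ∈ SS d true, c x + ∑ x ∈ SS d false, c x = 0 := by
  have h1 := hc.dist 11 15 (by norm_num) (by norm_num) ((66 * d : ℕ) : ZMod 165)
  have h2 := dist_dec d hd
  have h3 : ∑ i ∈ range 11, c (((66 * d : ℕ) : ZMod 165) + (i : ZMod 165) * ((15 : ℕ) : ZMod 165)) =
      (((Multiset.range 11).map (fun i : ℕ => ((66 * d : ℕ) : ZMod 165) +
        (i : ZMod 165) * ((15 : ℕ) : ZMod 165))).map c).sum := by
    rw [Multiset.map_map]
    rfl
  have h4 : ((11 : ℕ) : ZMod 165) * ((66 * d : ℕ) : ZMod 165) = ((66 * d : ℕ) : ZMod 165) := by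
    have : ((11 : ℕ) : ZMod 165) * ((66 : ℕ) : ZMod 165) = ((66 : ℕ) : ZMod 165) := by decide
    rw [Nat.cast_mul, ← mul_assoc, this]
  rw [h3, h2, h4, Multiset.map_cons, Multiset.sum_cons, Multiset.map_add, Multiset.sum_add] at h1
  exact add_left_cancel (h1.trans (add_zero _).symm)

lemma neg_dec : ∀ d ∈ ({1, 2, 3, 4} : Finset ℕ),
    (SS (5 - d) false).val = (SS d true).val.map (fun x => -x) := by
  decide +kernel

lemma Y_neg (hc : OddDist c) {d : ℕ} (hd : d ∈ ({1, 2, 3, 4} : Finset ℕ)) :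
    ∑ x ∈ SS (5 - d) false, c x = - ∑ x ∈ SS d true, c x := by
  have h1 : ∑ x ∈ SS (5 - d) false, c x = ((SS (5 - d) false).val.map c).sum := rfl
  rw [h1, neg_dec d hd, Multiset.map_map]
  have h2 : (c ∘ fun x => -x) = fun x => - c x := by
    funext x
    exact hc.neg x
  rw [h2]
  have h3 : ((SS d true).val.map fun x => - c x).sum = ∑ x ∈ SS d true, - c x := rfl
  rw [h3, sum_neg_distrib]

lemma base_dec : (univ.filter (fun x : ZMod 165 => x.val % 3 = 0 ∧ (x.val % 5 = 1 ∨ x.val % 5 = 2) ∧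
      x.val % 11 ∈ ({1, 3, 4, 5, 9} : Finset ℕ))).val = (SS 1 true).val + (SS 2 true).val := by
  decide +kernel

/-- all the sums -/
lemma Y_all (hc : OddDist c)
    (h : ∑ x ∈ univ.filter (fun x : ZMod 165 => x.val % 3 = 0 ∧ (x.val % 5 = 1 ∨ x.val % 5 = 2) ∧
      x.val % 11 ∈ ({1, 3, 4, 5, 9} : Finset ℕ)), c x = 0) {d : ℕ}
    (hd : d ∈ ({1, 2, 3, 4} : Finset ℕ)) (e : Bool) :
    ∑ x ∈ SS (2 * d % 5) (!e), c x = ∑ x ∈ SS d e, c x := by
  have h0 : ∑ x ∈ SS 1 true, c x + ∑ x ∈ SS 2 true, c x = 0 := by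
    have h1 : ∑ x ∈ univ.filter (fun x : ZMod 165 => x.val % 3 = 0 ∧ (x.val % 5 = 1 ∨ x.val % 5 = 2) ∧
      x.val % 11 ∈ ({1, 3, 4, 5, 9} : Finset ℕ)), c x = (((univ.filter (fun x : ZMod 165 =>
        x.val % 3 = 0 ∧ (x.val % 5 = 1 ∨ x.val % 5 = 2) ∧
      x.val % 11 ∈ ({1, 3, 4, 5, 9} : Finset ℕ))).val).map c).sum := rfl
    rw [h1, base_dec, Multiset.map_add, Multiset.sum_add] at h
    exact h
  have a1 := Y_add hc (d := 1) (by decide)
  have a2 := Y_add hc (d := 2) (by decide)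
  have a3 := Y_add hc (d := 3) (by decide)
  have a4 := Y_add hc (d := 4) (by decide)
  have n1 := Y_neg hc (d := 1) (by decide)
  have n2 := Y_neg hc (d := 2) (by decide)
  have n3 := Y_neg hc (d := 3) (by decide)
  have n4 := Y_neg hc (d := 4) (by decide)
  norm_num at n1 n2 n3 n4
  obtain ⟨y1, hy1⟩ : ∃ y, y = ∑ x ∈ SS 1 true, c x := ⟨_, rfl⟩
  obtain ⟨y2, hy2⟩ : ∃ y, y = ∑ x ∈ SS 2 true, c x := ⟨_, rfl⟩
  obtain ⟨y3, hy3⟩ : ∃ y, y = ∑ x ∈ SS 3 true, c x := ⟨_, rfl⟩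
  obtain ⟨y4, hy4⟩ : ∃ y, y = ∑ x ∈ SS 4 true, c x := ⟨_, rfl⟩
  obtain ⟨z1, hz1⟩ : ∃ y, y = ∑ x ∈ SS 1 false, c x := ⟨_, rfl⟩
  obtain ⟨z2, hz2⟩ : ∃ y, y = ∑ x ∈ SS 2 false, c x := ⟨_, rfl⟩
  obtain ⟨z3, hz3⟩ : ∃ y, y = ∑ x ∈ SS 3 false, c x := ⟨_, rfl⟩
  obtain ⟨z4, hz4⟩ : ∃ y, y = ∑ x ∈ SS 4 false, c x := ⟨_, rfl⟩
  rw [← hy1, ← hy2] at h0
  rw [← hy1, ← hz1] at a1
  rw [← hy2, ← hz2] at a2
  rw [← hy3, ← hz3] at a3
  rw [← hy4, ← hz4] at a4
  rw [← hy1, ← hz4] at n1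
  rw [← hy2, ← hz3] at n2
  rw [← hy3, ← hz2] at n3
  rw [← hy4, ← hz1] at n4
  have e1 : z1 = - y1 := by rw [add_comm] at a1; exact eq_neg_of_add_eq_zero_left a1
  have e2 : z2 = - y2 := by rw [add_comm] at a2; exact eq_neg_of_add_eq_zero_left a2
  have e3 : z3 = - y3 := by rw [add_comm] at a3; exact eq_neg_of_add_eq_zero_left a3
  have e4 : z4 = - y4 := by rw [add_comm] at a4; exact eq_neg_of_add_eq_zero_left a4
  have f4 : y4 = y1 := by rw [e1] at n4; exact (neg_inj.1 n4).symm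
  have f3 : y3 = y2 := by rw [e2] at n3; exact (neg_inj.1 n3).symm
  have f2 : y2 = - y1 := by rw [add_comm] at h0; exact eq_neg_of_add_eq_zero_left h0
  simp only [Finset.mem_insert, Finset.mem_singleton] at hd
  rcases hd with rfl | rfl | rfl | rfl <;> cases e <;>
    simp only [Bool.not_true, Bool.not_false, Nat.reduceMul, Nat.reduceMod, ← hy1, ← hy2, ← hy3, ← hy4, ← hz1, ← hz2, ← hz3, ← hz4, e1, e2, e3, e4, f4, f3, f2, neg_neg]

lemma t_dec : ∀ t ∈ Finset.range 55, Nat.gcd t 55 = 1 → ∃ d ∈ ({1, 2, 3, 4} : Finset ℕ), ∃ e ∈ ({true, false} : Finset Bool),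
    ({1, 31, 71, 81, 91} : Multiset ℕ).map (fun a => ((84 * (t * a) : ℕ) : ZMod 165)) = (SS d e).val ∧
    ({1, 31, 71, 81, 91} : Multiset ℕ).map (fun a => ((3 * (t * a) : ℕ) : ZMod 165)) =
      (SS (2 * d % 5) (!e)).val := by
  decide +kernel

lemma sum_five (hc : OddDist c)
    (h : ∑ x ∈ univ.filter (fun x : ZMod 165 => x.val % 3 = 0 ∧ (x.val % 5 = 1 ∨ x.val % 5 = 2) ∧
      x.val % 11 ∈ ({1, 3, 4, 5, 9} : Finset ℕ)), c x = 0) {t : ℕ} (ht : Nat.Coprime t 110) :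
    (({1, 31, 71, 81, 91} : Multiset ℕ).map (fun a => c ((3 * (t * a) : ℕ) : ZMod 165))).sum =
      (({1, 31, 71, 81, 91} : Multiset ℕ).map (fun a => c ((84 * (t * a) : ℕ) : ZMod 165))).sum := by
  have hmod : ∀ k a : ℕ, 3 ∣ k → ((k * (t * a) : ℕ) : ZMod 165) = ((k * (t % 55 * a) : ℕ) : ZMod 165) := by
    rintro k a ⟨j, rfl⟩
    rw [ZMod.natCast_eq_natCast_iff]
    have h1 : t % 55 * a ≡ t * a [MOD 55] := (Nat.mod_modEq t 55).mul_right a
    have h2 := Nat.ModEq.mul_left' 3 (h1.symm)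
    have h3 := Nat.ModEq.mul_left j h2
    have e1 : 3 * j * (t * a) = j * (3 * (t * a)) := by ring
    have e2 : 3 * j * (t % 55 * a) = j * (3 * (t % 55 * a)) := by ring
    rw [e1, e2]
    exact h3
  have hg : Nat.gcd (t % 55) 55 = 1 := by
    rw [← Nat.gcd_rec, Nat.gcd_comm]
    exact Nat.Coprime.coprime_dvd_right (by norm_num : 55 ∣ 110) ht
  obtain ⟨d, hd, e, -, h1, h2⟩ := t_dec (t % 55) (Finset.mem_range.2 (Nat.mod_lt _ (by norm_num))) hg
  have h3 := Y_all hc h hd e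
  have g1 : (({1, 31, 71, 81, 91} : Multiset ℕ).map (fun a => c ((3 * (t * a) : ℕ) : ZMod 165))).sum =
      ((({1, 31, 71, 81, 91} : Multiset ℕ).map
        (fun a => ((3 * (t % 55 * a) : ℕ) : ZMod 165))).map c).sum := by
    rw [Multiset.map_map]
    congr 1
    apply Multiset.map_congr rfl
    intro a _
    simp only [Function.comp_apply]
    rw [hmod 3 a (dvd_refl 3)]
  have g2 : (({1, 31, 71, 81, 91} : Multiset ℕ).map (fun a => c ((84 * (t * a) : ℕ) : ZMod 165))).sum =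
      ((({1, 31, 71, 81, 91} : Multiset ℕ).map
        (fun a => ((84 * (t % 55 * a) : ℕ) : ZMod 165))).map c).sum := by
    rw [Multiset.map_map]
    congr 1
    apply Multiset.map_congr rfl
    intro a _
    simp only [Function.comp_apply]
    rw [hmod 84 a (by norm_num)]
  rw [g1, g2, h1, h2]
  exact h3

end

/-- the conjugates of the character of degree 110, pulled back to degree 330 -/
theorem sum_six {Q : Type} [AddCommGroup Q] {c : ZMod 330 → Q} (hc : OddDist c)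
    (h : ∑ x ∈ univ.filter (fun x : ZMod 165 => x.val % 3 = 0 ∧ (x.val % 5 = 1 ∨ x.val % 5 = 2) ∧
      x.val % 11 ∈ ({1, 3, 4, 5, 9} : Finset ℕ)), c (iota 2 x) = 0) {t : ℕ}
    (ht : Nat.Coprime t 110) :
    (({1, 31, 55, 71, 81, 91} : Multiset ℕ).map
      (fun a => c ((3 * (t * a) : ℕ) : ZMod 330))).sum = 0 := by
  have h1 := sum_five (c := fun x : ZMod 165 => c (iota 2 x))
    (hc.comp_iota (by norm_num : 2 * 165 = 330)) h ht
  have hto : t % 2 = 1 := by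
    have : Nat.Coprime t 2 := Nat.Coprime.coprime_dvd_right (by norm_num) ht
    rcases Nat.even_or_odd t with h | h
    · exfalso
      have h2 : 2 ∣ t := h.two_dvd
      have := Nat.dvd_gcd h2 (dvd_refl 2)
      rw [Nat.Coprime] at *
      omega
    · exact Nat.odd_iff.1 h
  -- each odd entry
  have key : ∀ a : ℕ, a % 2 = 1 → c ((3 * (t * a) : ℕ) : ZMod 330) =
      c (iota 2 ((3 * (t * a) : ℕ) : ZMod 165)) - c (iota 2 ((84 * (t * a) : ℕ) : ZMod 165)) := by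
    intro a ha
    have h2 := hc.dist 2 165 Nat.prime_two (by norm_num) ((3 * (t * a) : ℕ) : ZMod 330)
    rw [sum_range_succ, sum_range_one] at h2
    have e1 : ((3 * (t * a) : ℕ) : ZMod 330) + ((0 : ℕ) : ZMod 330) * ((165 : ℕ) : ZMod 330) =
        ((3 * (t * a) : ℕ) : ZMod 330) := by simp
    have hta : (t * a) % 2 = 1 := by rw [Nat.mul_mod, hto, ha]
    have e2 : ((3 * (t * a) : ℕ) : ZMod 330) + ((1 : ℕ) : ZMod 330) * ((165 : ℕ) : ZMod 330) =
        ((2 * (84 * (t * a)) : ℕ) : ZMod 330) := by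
      rw [← Nat.cast_mul, ← Nat.cast_add, ZMod.natCast_eq_natCast_iff]
      obtain ⟨j, hj⟩ : ∃ j, t * a = 2 * j + 1 := ⟨t * a / 2, by omega⟩
      rw [hj]
      unfold Nat.ModEq
      omega
    have e3 : ((2 : ℕ) : ZMod 330) * ((3 * (t * a) : ℕ) : ZMod 330) =
        ((2 * (3 * (t * a)) : ℕ) : ZMod 330) := by
      rw [← Nat.cast_mul]
    rw [e1, e2, e3] at h2
    rw [iota_natCast (by norm_num : 2 * 165 = 330), iota_natCast (by norm_num : 2 * 165 = 330), ← h2,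
      add_sub_cancel_right]
  have k55 : c ((3 * (t * 55) : ℕ) : ZMod 330) = 0 := by
    apply hc.half
    rw [← Nat.cast_add, ZMod.natCast_eq_zero_iff]
    exact ⟨t, by ring⟩
  simp only [Multiset.insert_eq_cons, Multiset.map_cons, Multiset.map_singleton, Multiset.sum_cons,
    Multiset.sum_singleton] at h1 ⊢
  rw [k55, key 1 (by norm_num), key 31 (by norm_num), key 71 (by norm_num), key 81 (by norm_num),
    key 91 (by norm_num)]
  rw [← sub_eq_zero] at h1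
  refine Eq.trans ?_ h1
  abel

end Pool.Agent.N878.F
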