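import Pool.Agent.N992.FourDefs
import Pool.Agent.N878.F.Lev110

/-!
Fermat fourfolds of all degrees, from the identity of level 165.
-/

set_option autoImplicit false

namespace Pool.Agent.N878.F

open Finset Pool.Agent.H916R2 Pool.Agent.Y2 Pool.Agent.Y2.Cv Pool.Agent.Y2.Cw Pool.Agent.N992

/-- the identity of level 165 -/
def Kill165 : Prop := ∀ (Q : Type) [AddCommGroup Q] (c : ZMod 165 → Q), OddDist c →
    (∀ s, ModularCharacter 165 s → (s.map c).sum = 0) →
    ∑ x ∈ univ.filter (fun x : ZMod 165 => x.val % 3 = 0 ∧ (x.val % 5 = 1 ∨ x.val % 5 = 2) ∧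
      x.val % 11 ∈ ({1, 3, 4, 5, 9} : Finset ℕ)), c x = 0

lemma fourBase_good {m : ℕ} [NeZero m] :
    ∀ s, FourBase m s → (0 : ZMod m) ∉ s ∧ Even (Multiset.card s) := by
  rintro s (h | h)
  · exact base_good s h
  · exact ⟨h.1.1, h.1.2.1⟩

lemma fourBase_neg {m : ℕ} [NeZero m] :
    ∀ s, FourBase m s → FourBase m (s.map Neg.neg) := by
  rintro s (h | h)
  · exact Or.inl (base_neg s h)
  · exact Or.inr h.neg

theorem main_fourfold_of (h165 : Kill165) (m : ℕ) [NeZero m] [NeZero (6 * m)]
    (s : Multiset (ZMod m)) (hs : IsHodge m s) (hcard : Multiset.card s ≤ 6) (hne : s ≠ 0) :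
    Generated (6 * m) (FourBase (6 * m)) (s.map fun a => ((6 * a.val : ℕ) : ZMod (6 * m))) := by
  have hm0 : m ≠ 0 := NeZero.ne m
  have h2m : 2 * m ≠ 0 := Nat.mul_ne_zero two_ne_zero hm0
  have hN2 : NeZero (2 * m) := ⟨h2m⟩
  have h3 : 3 * (2 * m) = 6 * m := by ring
  obtain ⟨g, hgdef⟩ : ∃ g, g = cQ (6 * m) (FourBase (6 * m)) := ⟨_, rfl⟩
  have hg : OddDist g := by rw [hgdef]; exact cQ_oddDist
  have hgb : ∀ s, FourBase (6 * m) s → (s.map g).sum = 0 := fun s hs => by
    rw [hgdef]
    exact cQ_sum_eq_zero (Generated.ofBase (m := 6 * m) (base := FourBase (6 * m)) s hs)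
  have hC : OddDist (fun b : ZMod (2 * m) => g (iota 3 b)) := hg.comp_iota h3
  have hb' : ∀ s, SurfaceOrCurveProduct (2 * m) s →
      (s.map (fun b : ZMod (2 * m) => g (iota 3 b))).sum = 0 := by
    intro u hu
    have hu' : SurfaceOrCurveProduct (6 * m) (u.map (iota 3 : ZMod (2 * m) → ZMod (6 * m))) := by
      rcases hu with ⟨h1, h2⟩ | h1
      · exact Or.inl ⟨h1.iota h3, by rw [Multiset.card_map]; exact h2⟩
      · exact Or.inr (h1.lift h3)
    have h4 := hgb _ (Or.inl hu')
    rw [Multiset.map_map] at h4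
    exact h4
  have hb : ∀ s, Base110 (2 * m) s → (s.map (fun b : ZMod (2 * m) => g (iota 3 b))).sum = 0 := by
    rintro u (hu | ⟨l, t, hl, ht, rfl⟩)
    · exact hb' u hu
    · have hl330 : l * 330 = 6 * m := by omega
      have hc0 : OddDist (fun b : ZMod 330 => g (iota l b)) := hg.comp_iota hl330
      have hY := h165 _ (fun x : ZMod 165 => g (iota l (iota 2 x : ZMod 330)))
        (hc0.comp_iota (by norm_num : 2 * 165 = 330)) (by
          intro u hu
          have h5 : ModularCharacter 330 (u.map (iota 2 : ZMod 165 → ZMod 330)) :=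
            hu.lift (by norm_num)
          have h6 : ModularCharacter (6 * m) ((u.map (iota 2 : ZMod 165 → ZMod 330)).map
              (iota l : ZMod 330 → ZMod (6 * m))) := h5.lift hl330
          have h7 := hgb _ (Or.inr h6)
          rw [Multiset.map_map, Multiset.map_map] at h7
          exact h7)
      have h8 := sum_six hc0 hY ht
      rw [Multiset.map_map]
      refine Eq.trans ?_ h8
      congr 1
      apply Multiset.map_congr rfl
      intro a _
      show g (iota 3 ((l * (t * a) : ℕ) : ZMod (2 * m))) =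
        g (iota l ((3 * (t * a) : ℕ) : ZMod 330))
      rw [iota_natCast h3, iota_natCast hl330]
      congr 2
      ring
  have hs1 : IsHodge (2 * m) (s.map (iota 2 : ZMod m → ZMod (2 * m))) := hs.iota rfl
  have h1 := six_zero4 (2 * m) h2m (by omega) ((s.map (iota 2 : ZMod m → ZMod (2 * m))).map ZMod.val)
    (by rwa [Multiset.card_map, Multiset.card_map])
    (fun t ht => saw_rel _ hs1 t ht) _ (fun b : ZMod (2 * m) => g (iota 3 b)) hC
    (killsC_of h2m hC hb') (kills420_of h2m hC hb') (kills110_of h2m hC hb)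
  have h6 : IsHodge (6 * m) (s.map (iota 6 : ZMod m → ZMod (6 * m))) := hs.iota rfl
  have h2 : ((s.map (iota 6 : ZMod m → ZMod (6 * m))).map g).sum = 0 := by
    rw [← h1, Multiset.map_map, Multiset.map_map, Multiset.map_map]
    congr 1
    apply Multiset.map_congr rfl
    intro a _
    simp only [Function.comp_apply]
    rw [ZMod.natCast_zmod_val]
    congr 1
    show iota 6 a = iota 3 ((2 * a.val : ℕ) : ZMod (2 * m))
    rw [iota_natCast h3]
    show ((6 * a.val : ℕ) : ZMod (6 * m)) = _
    congr 1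
    ring
  rw [hgdef, cQ_sum, QuotientAddGroup.eq_zero_iff] at h2
  refine generated_of_mem_LL fourBase_good fourBase_neg h6.1 h6.2.1 ?_ h2
  intro h
  exact hne ((Multiset.map_eq_zero).1 h)

end Pool.Agent.N878.F
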